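import Mathlib

namespace Pool.Agent.H.MP_28c31d_co

def Ok (D e : Fin 13 → ℤ) (o w x y z : ℤ) : Prop :=
  e 0 ≤ D 0 + 2 * w + x + y + z - 5 * o ∧ e 1 ≤ D 1 - 3 * w + x + 2 * o ∧
  e 2 ≤ D 2 - 2 * x + w + o ∧ e 3 ≤ D 3 - w + y ∧ e 4 ≤ D 4 - 2 * y + w + o ∧
  e 5 ≤ D 5 - w + z ∧ e 6 ≤ D 6 - 2 * z + w + o ∧ e 7 ≤ D 7 - x + y ∧ e 8 ≤ D 8 - y + x ∧
  e 9 ≤ D 9 - x + z ∧ e 10 ≤ D 10 - z + x ∧ e 11 ≤ D 11 - y + z ∧ e 12 ≤ D 12 - z + y

lemma sum13 (D : Fin 13 → ℤ) : ∑ v, D v = D 0 + D 1 + D 2 + D 3 + D 4 + D 5 + D 6 + D 7 + D 8 +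
    D 9 + D 10 + D 11 + D 12 := by
  simp [Fin.sum_univ_succ]; ring

def dl (v w : Fin 13) : ℤ := if w = v then 1 else 0

def B (a b c : Bool) (i j v : Fin 13) : ℤ :=
  dl 1 v + dl 3 v + dl 5 v + dl (if a then 7 else 8) v + dl (if b then 9 else 10) v +
    dl (if c then 11 else 12) v + (dl i v + dl j v)

def No (D e : Fin 13 → ℤ) : Prop :=
  ∀ w ∈ [(0 : ℤ), 1], ∀ x ∈ [(-1 : ℤ), 0, 1], e 1 ≤ D 1 - 3 * w + x → e 2 ≤ D 2 - 2 * x + w →
    ∀ y ∈ [(-1 : ℤ), 0, 1], e 3 ≤ D 3 - w + y → e 4 ≤ D 4 - 2 * y + w → e 7 ≤ D 7 - x + y →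
      e 8 ≤ D 8 - y + x → ∀ z ∈ [(-1 : ℤ), 0, 1], e 5 ≤ D 5 - w + z → e 6 ≤ D 6 - 2 * z + w →
        e 9 ≤ D 9 - x + z → e 10 ≤ D 10 - z + x → e 11 ≤ D 11 - y + z → e 12 ≤ D 12 - z + y →
          D 0 + 2 * w + x + y + z < e 0

set_option synthInstance.maxSize 4096 in
instance (D e : Fin 13 → ℤ) : Decidable (No D e) := by
  unfold No; infer_instance

lemma fin : ∀ a b c i j, ∃ v ∈ [0, 2, 4, 6, 7, 8, 9, 10, 11, 12], No (B a b c i j) (dl v) := by
  decide +kernel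

lemma step (r : Fin 13 → ℤ) (n : ℤ) (h0 : ∀ v, 0 ≤ r v) (hn : 0 ≤ n) (hs : ∑ v, r v ≤ n + 1) :
    ∃ i, ∃ r' : Fin 13 → ℤ, (∀ v, 0 ≤ r' v) ∧ ∑ v, r' v ≤ n ∧ ∀ v, r v ≤ r' v + dl i v := by
  by_cases h : ∃ i, 0 < r i
  · obtain ⟨i, hi⟩ := h
    refine ⟨i, fun v => r v - dl i v, fun v => ?_, ?_, fun v => by simp⟩
    · have := h0 v
      simp only [dl]; split_ifs with h
      · subst h; omega
      · omega
    · simp [dl]; omega
  · push Not at h
    refine ⟨0, fun _ => 0, fun _ => le_rfl, by simpa, fun v => (h v).trans ?_⟩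
    unfold dl; split_ifs <;> simp

lemma m2 (a : ℤ) (h : -1 < a) (h' : a < 2) : a ∈ [(0 : ℤ), 1] := by simp; omega
lemma m3 (a : ℤ) (h : -2 < a) (h' : a < 2) : a ∈ [(-1 : ℤ), 0, 1] := by simp; omega

lemma core (D : Fin 13 → ℤ) (h0 : ∀ v, 0 ≤ D v) (hs : ∑ v, D v ≤ 8) (h1 : 1 ≤ D 1)
    (h3 : 1 ≤ D 3) (h5 : 1 ≤ D 5) (h : ∀ v, ∃ o w x y z, Ok D (dl v) o w x y z) : False := by
  obtain ⟨a, ha⟩ : ∃ a : Bool, 1 ≤ D (if a then 7 else 8) := by
    obtain ⟨o, w, x, y, z, H⟩ := h 7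
    simp [Ok, dl] at H
    have := h0 7; have := h0 8
    simp; omega
  obtain ⟨b, hb⟩ : ∃ b : Bool, 1 ≤ D (if b then 9 else 10) := by
    obtain ⟨o, w, x, y, z, H⟩ := h 9
    simp [Ok, dl] at H
    have := h0 9; have := h0 10
    simp; omega
  obtain ⟨c, hc⟩ : ∃ c : Bool, 1 ≤ D (if c then 11 else 12) := by
    obtain ⟨o, w, x, y, z, H⟩ := h 11
    simp [Ok, dl] at H
    have := h0 11; have := h0 12
    simp; omega
  obtain ⟨i, r, r0, rs, hr⟩ := step (fun v => D v - (dl 1 v + dl 3 v + dl 5 v +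
      dl (if a then 7 else 8) v + dl (if b then 9 else 10) v + dl (if c then 11 else 12) v)) 1
    (fun v => by
      have := h0 v
      cases a <;> cases b <;> cases c <;> fin_cases v <;> simp_all [dl]) (by norm_num)
    (by simp [dl, Finset.sum_add_distrib]; omega)
  obtain ⟨j, r', r0', rs', hr'⟩ := step r 0 r0 le_rfl (by simpa)
  have hz : ∀ v, r' v = 0 := fun v =>
    (Finset.sum_eq_zero_iff_of_nonneg fun v _ => r0' v).1
      (le_antisymm rs' (Finset.sum_nonneg fun v _ => r0' v)) v (Finset.mem_univ v)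
  have hD : ∀ v, D v ≤ B a b c i j v := fun v => by
    have := hr v; have := hr' v; have := hz v
    unfold B; omega
  obtain ⟨v, -, hv⟩ := fin a b c i j
  obtain ⟨o, w, x, y, z, H⟩ := h v
  have hd : ∀ u, 0 ≤ dl v u := fun u => by unfold dl; split_ifs <;> simp
  rw [sum13] at hs
  have b0 := h0 0; have b2 := h0 2; have b4 := h0 4; have b6 := h0 6; have b7 := h0 7
  have b8 := h0 8; have b9 := h0 9; have b10 := h0 10; have b11 := h0 11; have b12 := h0 12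
  have c0 := hd 0; have c1 := hd 1; have c2 := hd 2; have c3 := hd 3; have c4 := hd 4
  have c5 := hd 5; have c6 := hd 6
  have ha' : 1 ≤ D 7 + D 8 := by cases a <;> simp at ha <;> omega
  have hb' : 1 ≤ D 9 + D 10 := by cases b <;> simp at hb <;> omega
  have hc' : 1 ≤ D 11 + D 12 := by cases c <;> simp at hc <;> omega
  obtain ⟨k0, k1, k2, k3, k4, k5, k6, k7, k8, k9, k10, k11, k12⟩ := H
  have w1 : w - o < 2 := by linarith
  have x1 : x - o < 2 := by linarith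
  have y1 : y - o < 2 := by linarith
  have z1 : z - o < 2 := by linarith
  have w2 : -1 < w - o := by linarith
  have x2 : -2 < x - o := by linarith
  have y2 : -2 < y - o := by linarith
  have z2 : -2 < z - o := by linarith
  have := hv (w - o) (m2 _ w2 w1) (x - o) (m3 _ x2 x1) (by linarith only [k1, hD 1])
    (by linarith only [k2, hD 2]) (y - o) (m3 _ y2 y1) (by linarith only [k3, hD 3])
    (by linarith only [k4, hD 4]) (by linarith only [k7, hD 7]) (by linarith only [k8, hD 8])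
    (z - o) (m3 _ z2 z1) (by linarith only [k5, hD 5]) (by linarith only [k6, hD 6])
    (by linarith only [k9, hD 9]) (by linarith only [k10, hD 10]) (by linarith only [k11, hD 11])
    (by linarith only [k12, hD 12])
  linarith only [this, k0, hD 0]

lemma mx (a b c : ℤ) : ∃ o, a ≤ o ∧ b ≤ o ∧ c ≤ o ∧ (o ≤ a ∨ o ≤ b ∨ o ≤ c) :=
  ⟨max a (max b c), by omega⟩

lemma core' (D : Fin 13 → ℤ) (hs : ∑ v, D v ≤ 8)
    (h : ∀ v, ∃ o w x y z, Ok D (dl v) o w x y z) : False := by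
  obtain ⟨o1, w1, x1, y1, z1, H1⟩ := h 1
  obtain ⟨o3, w3, x3, y3, z3, H3⟩ := h 3
  obtain ⟨o5, w5, x5, y5, z5, H5⟩ := h 5
  simp [Ok, dl] at H1 H3 H5
  obtain ⟨o, o1', o3', o5', ho⟩ := mx (o1 - w1) (o3 - w3) (o5 - w5)
  obtain ⟨x, x1', x3', x5', hx⟩ := mx (x1 - w1) (x3 - w3) (x5 - w5)
  obtain ⟨y, y1', y3', y5', hy⟩ := mx (y1 - w1) (y3 - w3) (y5 - w5)
  obtain ⟨z, z1', z3', z5', hz⟩ := mx (z1 - w1) (z3 - w3) (z5 - w5)
  obtain ⟨a0, a1, a2, a3, a4, a5, a6, a7, a8, a9, a10, a11, a12⟩ := H1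
  obtain ⟨b0, b1, b2, b3, b4, b5, b6, b7, b8, b9, b10, b11, b12⟩ := H3
  obtain ⟨c0, c1, c2, c3, c4, c5, c6, c7, c8, c9, c10, c11, c12⟩ := H5
  have k : Ok D (fun v => dl 1 v + dl 3 v + dl 5 v) o 0 x y z := by
    simp only [Ok, dl]
    simp
    refine ⟨?_, ?_, ?_, ?_, ?_, ?_, ?_, ?_, ?_, ?_, ?_, ?_, ?_⟩
    · rcases ho with h | h | h <;> linarith
    · linarith
    · rcases hx with h | h | h <;> linarith
    · linarith
    · rcases hy with h | h | h <;> linarith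
    · linarith
    · rcases hz with h | h | h <;> linarith
    · rcases hx with h | h | h <;> linarith
    · rcases hy with h | h | h <;> linarith
    · rcases hx with h | h | h <;> linarith
    · rcases hz with h | h | h <;> linarith
    · rcases hy with h | h | h <;> linarith
    · rcases hz with h | h | h <;> linarith
  simp [Ok, dl] at k
  obtain ⟨k0, k1, k2, k3, k4, k5, k6, k7, k8, k9, k10, k11, k12⟩ := k
  refine core ![D 0 + x + y + z - 5 * o, D 1 + x + 2 * o, D 2 - 2 * x + o, D 3 + y, D 4 - 2 * y + o,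
    D 5 + z, D 6 - 2 * z + o, D 7 - x + y, D 8 - y + x, D 9 - x + z, D 10 - z + x, D 11 - y + z,
    D 12 - z + y] (fun v => ?_) ?_ k1 k3 k5 fun v => ?_
  · fin_cases v <;> simp <;> linarith only [k0, k1, k2, k3, k4, k5, k6, k7, k8, k9, k10, k11, k12]
  · rw [sum13] at hs ⊢
    simp
    linarith only [hs]
  · obtain ⟨o', w', x', y', z', m0, m1, m2, m3, m4, m5, m6, m7, m8, m9, m10, m11, m12⟩ := h v
    refine ⟨o' - o, w', x' - x, y' - y, z' - z, ?_⟩
    simp only [Ok]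
    simp
    exact ⟨by linarith only [m0], by linarith only [m1], by linarith only [m2],
      by linarith only [m3], by linarith only [m4], by linarith only [m5], by linarith only [m6],
      by linarith only [m7], by linarith only [m8], by linarith only [m9], by linarith only [m10],
      by linarith only [m11], by linarith only [m12]⟩

end Pool.Agent.H.MP_28c31d_co
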