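import Mathlib

namespace Pool.Agent.H.MP_28c31d_co

def dg (N i : ℕ) : ℕ := N / 16 ^ i % 16
def ix (e : Fin 83) : ℕ := if e.1 < 72 then e.1 / 9 else e.1 - 64
def sG (e : Fin 83) : Fin 13 := Fin.ofNat 13 (dg 52201726799016497 (ix e))
def tG (e : Fin 83) : Fin 13 := Fin.ofNat 13 (dg 29552965990748069074771 (ix e))
def ps (e : Fin 83) : ℕ := dg 5085314292908032 (ix e)
def rg (v : Fin 13) : ℕ := dg 1183225440571920 v
def ht (c : ℕ) (v : Fin 13) : ℤ := -((c / 4 ^ rg v % 4 : ℕ) : ℤ)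

def scr (c : ℕ) (e0 : ℕ) (a : ℕ) : Fin 13 ⊕ Fin 83 × Fin 2 → ℤ
  | .inl v => ht c v
  | .inr (e, i) =>
    (if ht c (tG e) ≤ ht c (sG e) then max (ht c (tG e)) (ht c (sG e) - ((i.1 + 1 - ps e : ℕ) : ℤ))
      else max (ht c (sG e)) (ht c (tG e) - ((ps e - (i.1 + 1) : ℕ) : ℤ))) -
    if e.1 = e0 ∧ a ≤ i.1 then 1 else 0

def DD : Fin 13 ⊕ Fin 83 × Fin 2 → ℤ
  | .inl v => if v = 0 then 2 else 0
  | .inr (e, i) => if ps e = i.1 + 1 then 1 else 0

def rc (v : Fin 13) : ℕ := [0, 4, 96, 384, 528].getD (rg v) 0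

def tg : Fin 13 ⊕ Fin 83 × Fin 2 → Fin 13 ⊕ Fin 83 × Fin 2 → ℤ
  | .inl v => scr (rc v) 0 2
  | .inr (e, i) => if e.1 < 72 then scr (rc (sG e)) e 0 else
      scr ([0, 528, 0, 96, 0, 384, 0, 64, 16, 0, 0, 256, 4, 4, 4, 4, 528, 96, 96, 384, 384, 528].getD
        (2 * (e.1 - 72) + i) 0) e (if (e.1 = 78 ∨ e.1 = 79) ∧ i.1 = 1 then 1 else 2)

def Gd (v : Fin 13 ⊕ Fin 83 × Fin 2) (f : Fin 13 ⊕ Fin 83 × Fin 2 → ℤ) : Prop :=
  (∀ u : Fin 13, 0 ≤ DD (.inl u) - (if .inl u = v then 1 else 0) -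
    ∑ e, ((if sG e = u then f (.inl u) - f (.inr (e, 0)) else 0) +
        (if tG e = u then f (.inl u) - f (.inr (e, 1)) else 0))) ∧
  ∀ e : Fin 83, (0 ≤ DD (.inr (e, 0)) - (if .inr (e, 0) = v then 1 else 0) -
      (2 * f (.inr (e, 0)) - f (.inl (sG e)) - f (.inr (e, 1)))) ∧
    0 ≤ DD (.inr (e, 1)) - (if .inr (e, 1) = v then 1 else 0) -
      (2 * f (.inr (e, 1)) - f (.inl (tG e)) - f (.inr (e, 0)))

instance (v f) : Decidable (Gd v f) := by unfold Gd; infer_instance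

lemma up1 : ∀ v, Gd (.inl v) (tg (.inl v)) := by decide +kernel

lemma u7 : ∀ e : Fin 83, 72 ≤ e.1 → ∀ i, Gd (.inr (e, i)) (tg (.inr (e, i))) := by
  decide +kernel

lemma rig (e0 : Fin 83) (h : e0.1 < 72) (i : Fin 2) :
    Gd (.inr (e0, i)) (scr (rc (sG e0)) e0 0) := by
  have hc : ∀ e : Fin 83, e.1 < 72 → rc (tG e) = rc (sG e) ∧ sG e ≠ tG e := by decide +kernel
  have A : Gd _ (scr (rc (sG e0)) 0 2) := up1 (sG e0)
  have B : Gd _ (scr (rc (tG e0)) 0 2) := up1 (tG e0)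
  rw [(hc e0 h).1] at B
  have hne := (hc e0 h).2
  generalize rc (sG e0) = c at A B
  have hs : ∀ v, scr c e0 0 (.inl v) = scr c 0 2 (.inl v) := fun _ => rfl
  have hr : ∀ e j, scr c e0 0 (.inr (e, j)) = scr c 0 2 (.inr (e, j)) - if e = e0 then 1 else 0 :=
    fun e j => by
      have : ¬ (e.1 = 0 ∧ 2 ≤ j.1) := by omega
      simp only [scr, if_neg this, sub_zero, Nat.zero_le, and_true, Fin.val_inj]
  simp only [Gd, hs, hr]
  generalize scr c 0 2 = f at A B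
  refine ⟨fun u => ?_, fun e => ?_⟩
  · have a := A.1 u
    have b := B.1 u
    have : ∀ e, ((if sG e = u then f (.inl u) - (f (.inr (e, 0)) - if e = e0 then 1 else 0) else 0) +
        (if tG e = u then f (.inl u) - (f (.inr (e, 1)) - if e = e0 then 1 else 0) else 0)) =
        ((if sG e = u then f (.inl u) - f (.inr (e, 0)) else 0) +
        (if tG e = u then f (.inl u) - f (.inr (e, 1)) else 0)) +
        if e = e0 then (if sG e = u then 1 else 0) + (if tG e = u then 1 else 0) else 0 :=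
      fun e => by split_ifs <;> ring
    simp only [this]
    rw [Finset.sum_add_distrib, Finset.sum_ite_eq']
    simp only [Finset.mem_univ, if_true, reduceCtorEq, if_false, Sum.inl.injEq] at a b ⊢
    split_ifs at a b ⊢ <;> omega
  · have a := A.2 e
    simp only [reduceCtorEq, if_false, Sum.inr.injEq, Prod.mk.injEq] at a ⊢
    constructor <;> split_ifs <;> omega

lemma up (v : Fin 13 ⊕ Fin 83 × Fin 2) : Gd v (tg v) := by
  rcases v with v | ⟨e, i⟩
  · exact up1 v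
  · by_cases h : e.1 < 72
    · simpa only [tg, if_pos h] using rig e h i
    · exact u7 e (not_lt.1 h) i

end Pool.Agent.H.MP_28c31d_co
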